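import Pool.Agent.Helper16.MD.Stmts

/-!
Moebius disjointness of generalized Morse systems: module PAR (the parameters).
-/

open Finset Filter

namespace Pool.Agent.Helper16.MD

/-- linear functions are eventually below powers of two. -/
theorem par_lin (C : ℝ) : ∀ᶠ m : ℕ in atTop, C * m ≤ (2 : ℝ) ^ m := by
  have h1 : Tendsto (fun m : ℕ => (m : ℝ) ^ 1 / (2 : ℝ) ^ m) atTop (nhds 0) :=
    tendsto_pow_const_div_const_pow_of_one_lt 1 (by norm_num)
  have h2 : Tendsto (fun m : ℕ => C * ((m : ℝ) ^ 1 / (2 : ℝ) ^ m)) atTop (nhds (C * 0)) :=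
    h1.const_mul C
  rw [mul_zero] at h2
  filter_upwards [h2.eventually (gt_mem_nhds (zero_lt_one))] with m hm
  have h3 : (0 : ℝ) < (2 : ℝ) ^ m := by positivity
  have h4 : C * ((m : ℝ) ^ 1 / (2 : ℝ) ^ m) = C * m / (2 : ℝ) ^ m := by ring
  rw [h4, div_lt_one h3] at hm
  exact hm.le

theorem par_const (C : ℝ) : ∀ᶠ m : ℕ in atTop, C ≤ (2 : ℝ) ^ m := by
  have h1 : Tendsto (fun m : ℕ => (2 : ℝ) ^ m) atTop atTop :=
    tendsto_pow_atTop_atTop_of_one_lt (by norm_num)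
  exact h1.eventually_ge_atTop C

theorem st_PAR : ST_PAR := by
  intro K J n C hK hn
  obtain ⟨A, hA⟩ := eventually_atTop.1 ((par_lin C).and ((par_const C).and
    ((par_const (n : ℝ)).and (par_lin ((1 + 400 * K ^ 2 : ℕ) : ℝ)))))
  set I₀ : ℕ := A + J + 1 with hI₀
  set M : ℕ := 200 * K ^ 2 with hM
  have hK4 : 4 ≤ K ^ 2 := by nlinarith
  have hMpos : 0 < M := by omega
  refine ⟨2 ^ (M * I₀), Nat.one_le_two_pow, ?_⟩
  intro Λ hΛ
  have hΛ0 : Λ ≠ 0 := by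
    have : 0 < 2 ^ (M * I₀) := by positivity
    omega
  set L : ℕ := Nat.log 2 Λ with hL
  set I : ℕ := L / M with hI
  have hL1 : M * I₀ ≤ L := by
    rw [hL]
    exact (Nat.le_log_iff_pow_le (by norm_num) hΛ0).2 hΛ
  have hI1 : I₀ ≤ I := by
    rw [hI, Nat.le_div_iff_mul_le hMpos]
    rw [mul_comm]; exact hL1
  have hI2 : M * I ≤ L := Nat.mul_div_le L M
  have hI3 : L + 1 ≤ M * (I + 1) := by
    exact Nat.lt_mul_div_succ L hMpos
  have hlow : 2 ^ (M * I) ≤ Λ :=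
    (Nat.pow_le_pow_right (by norm_num) hI2).trans (Nat.pow_log_le_self 2 hΛ0)
  have hup : Λ ≤ 2 ^ (M * (I + 1)) := by
    have h1 : Λ < 2 ^ (L + 1) := Nat.lt_pow_succ_log_self (by norm_num) Λ
    exact h1.le.trans (Nat.pow_le_pow_right (by norm_num) hI3)
  have hIA : A ≤ I := by omega
  have hIJ : J ≤ I := by omega
  have hIone : 1 ≤ I := by omega
  have hup2 : Λ ≤ 2 ^ (400 * K ^ 2 * I) := by
    refine hup.trans (Nat.pow_le_pow_right (by norm_num) ?_)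
    have h1 : I + 1 ≤ 2 * I := by omega
    calc M * (I + 1) ≤ M * (2 * I) := Nat.mul_le_mul_left _ h1
      _ = 400 * K ^ 2 * I := by rw [hM]; ring
  obtain ⟨-, hc1, hn1, hl1⟩ := hA I hIA
  have hn2 : n ≤ 2 ^ I := by exact_mod_cast hn1
  have hl2 : (1 + 400 * K ^ 2) * I ≤ 2 ^ I := by exact_mod_cast hl1
  have hnΛ : n * Λ ≤ 2 ^ (I + 400 * K ^ 2 * I) := by
    rw [pow_add]
    exact Nat.mul_le_mul hn2 hup2
  have hnΛi : ∀ i, I ≤ i → n * Λ ≤ 2 ^ (800 * K ^ 2 * i) := by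
    intro i hi
    refine hnΛ.trans (Nat.pow_le_pow_right (by norm_num) ?_)
    have h1 : 800 * K ^ 2 * I ≤ 800 * K ^ 2 * i := Nat.mul_le_mul_left _ hi
    have h2 : I ≤ 400 * K ^ 2 * I := by nlinarith
    nlinarith
  refine ⟨I, hIJ, hIone, ?_, ?_⟩
  · refine hnΛ.trans (Nat.pow_le_pow_right (by norm_num) ?_)
    refine le_trans (le_of_eq ?_) hl2
    ring
  intro i j k hi1 hi2 hj1 hj2 hk1 hk2
  have hkK : k ≤ 11 * K ^ 2 * I := by
    refine hk2.le.trans (le_of_eq ?_)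
    ring
  have hk800 : ∀ i, I ≤ i → k ≤ 800 * K ^ 2 * i := by
    intro i hi
    have h1 : 800 * K ^ 2 * I ≤ 800 * K ^ 2 * i := Nat.mul_le_mul_left _ hi
    have h2 : 11 * K ^ 2 * I ≤ 800 * K ^ 2 * I := by
      apply Nat.mul_le_mul_right
      omega
    omega
  have hkI : I ≤ k := by
    refine le_trans ?_ hk1
    nlinarith
  have hsum : i + j + k ≤ 12 * K ^ 2 * I := by
    have h1 : i + j ≤ 2 * (K * I) := by omega
    have h2 : 2 * (K * I) ≤ K ^ 2 * I := by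
      have : 2 * K ≤ K ^ 2 := by nlinarith
      calc 2 * (K * I) = (2 * K) * I := by ring
        _ ≤ K ^ 2 * I := Nat.mul_le_mul_right _ this
    have h3 : 12 * K ^ 2 * I = K ^ 2 * I + 11 * K ^ 2 * I := by ring
    omega
  refine ⟨?_, hk800 i hi1, hk800 j hj1, hnΛi i hi1, hnΛi j hj1, ?_, (hA i (hIA.trans hi1)).1,
    (hA j (hIA.trans hj1)).1, (hA k (hIA.trans hkI)).1, (hA i (hIA.trans hi1)).2.1,
    (hA j (hIA.trans hj1)).2.1, (hA k (hIA.trans hkI)).2.1⟩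
  · have h1 : i + j ≤ 2 * (K * I) := by omega
    have h2 : 11 * K * I = 11 * (K * I) := by ring
    omega
  · have h1 : ((2 : ℝ) ^ (i + j + k)) ^ 2 ≤ (2 : ℝ) ^ (24 * K ^ 2 * I) := by
      rw [← pow_mul]
      apply pow_le_pow_right₀ (by norm_num)
      have : 24 * K ^ 2 * I = 12 * K ^ 2 * I * 2 := by ring
      rw [this]
      exact Nat.mul_le_mul_right _ hsum
    have h2 : (2 : ℝ) ^ I * (2 : ℝ) ^ (24 * K ^ 2 * I) < (2 : ℝ) ^ (M * I) := by
      rw [← pow_add]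
      apply pow_lt_pow_right₀ (by norm_num)
      have h4 : I + 24 * K ^ 2 * I = (1 + 24 * K ^ 2) * I := by ring
      rw [h4]
      apply Nat.mul_lt_mul_of_pos_right _ (by omega)
      rw [hM]
      omega
    have h3 : (2 : ℝ) ^ (M * I) ≤ Λ := by exact_mod_cast hlow
    calc C * ((2 : ℝ) ^ (i + j + k)) ^ 2 ≤ (2 : ℝ) ^ I * ((2 : ℝ) ^ (i + j + k)) ^ 2 :=
          mul_le_mul_of_nonneg_right hc1 (by positivity)
      _ ≤ (2 : ℝ) ^ I * (2 : ℝ) ^ (24 * K ^ 2 * I) := mul_le_mul_of_nonneg_left h1 (by positivity)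
      _ < (2 : ℝ) ^ (M * I) := h2
      _ ≤ Λ := h3

end Pool.Agent.Helper16.MD
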